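import Pool.Agent.Helper15.RK.GoalsF
import Pool.Agent.Helper31.SP.SPEC
import Pool.Agent.Helper95.RK.Basics

/-! # Packet FRE: foliated charts -/

open Complex Metric Set Filter Topology MeasureTheory
open scoped ContDiff ComplexConjugate ComplexOrder Manifold Matrix

namespace Pool.Agent.Helper56.RK

open Pool.Agent.Helper95.Lin Pool.Agent.Helper16.Abund Pool.Agent.Helper92.Orb
  Pool.Agent.Helper10.SP Pool.Agent.Helper95.RK Pool.Agent.Helper15.RK Pool.Agent.Helper31.SP

universe u v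

/-- the Wirtinger derivative of a holomorphic function -/
theorem cd_holo {n : ℕ} (l : Fin n) {f : Cn n → ℂ} {x : Cn n} (hf : DifferentiableAt ℂ f x) :
    cd l f x = 2 * fderiv ℂ f x (Pi.single l 1) := by
  have h1 : fderiv ℝ f x = (fderiv ℂ f x).restrictScalars ℝ :=
    (hf.hasFDerivAt.restrictScalars ℝ).fderiv
  have h2 : (Pi.single l I : Cn n) = I • (Pi.single l 1 : Cn n) := by
    rw [← Pi.single_smul, smul_eq_mul, mul_one]
  unfold cd
  rw [h1]
  show fderiv ℂ f x (Pi.single l 1) - I * fderiv ℂ f x (Pi.single l I) = _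
  rw [h2, map_smul, smul_eq_mul, ← mul_assoc, I_mul_I]
  ring

theorem Dv_holo {n : ℕ} (ξ : Cn n → Cn n) {f : Cn n → ℂ} {x : Cn n}
    (hf : DifferentiableAt ℂ f x) : Dv ξ f x = 2 * fderiv ℂ f x (ξ x) := by
  have h1 : ξ x = ∑ j, ξ x j • (Pi.single j 1 : Cn n) := by
    funext i
    rw [Finset.sum_apply, Finset.sum_eq_single i]
    · simp
    · intro j _ hj
      simp [hj.symm]
    · intro h
      exact absurd (Finset.mem_univ i) h
  unfold Dv
  simp only [cd_holo _ hf]
  conv_rhs => rw [h1, map_sum]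
  rw [Finset.mul_sum]
  refine Finset.sum_congr rfl fun j _ => ?_
  rw [map_smul, smul_eq_mul]
  ring

theorem lev_eq_zero_of_ker {n : ℕ} (hLMF : S_LMF) {W : Set (Cn n)} (hW : IsOpen W) {Φ : Cn n → ℝ}
    (hΦ : ContDiffOn ℝ ∞ Φ W) {x : Cn n} (hx : x ∈ W) {e : Cn n}
    (he : ∀ j, ∑ i, LM Φ x i j * e i = 0) : lev Φ x e = 0 := by
  have h1 := (hLMF W hW Φ hΦ).2.2.1 x hx e
  have h2 : hermi (LM Φ x) e e = 0 := by
    unfold hermi
    rw [Finset.sum_comm]
    refine Finset.sum_eq_zero fun j _ => ?_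
    rw [← Finset.sum_mul, he j, zero_mul]
  rw [h2] at h1
  exact_mod_cast h1

theorem fre (hWCH : S_WCH) (hLMF : S_LMF) (hKFE : S_KFE) (hDERK : S_DERK)
    (hFRD : S_FRD.{u, v}) (hSTRK : S_STRK) : S_FRE.{u, v} := by
  intro b k G M _ _ _ _ _ _ _ h g v hk D hF p
  set χ := chartAt (Fin (b + k) → ℂ) p with hχ
  have hps : p ∈ χ.source := mem_chart_source _ p
  have hx₀ : χ p ∈ χ.target := χ.map_source hps
  have hPar₀ : Par (b + k) (χ.symm : Cn (b + k) → M) χ.target :=
    ⟨⟨χ.open_target, mdiff_chart_symm p⟩, fun z hz => jac_chart_symm_ne_zero p hz⟩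
  set ψ₀ : Cn (b + k) → M := fun z => χ.symm z with hψ₀
  set Φ₀ := lpot (b + k) v ψ₀ with hΦ₀
  have hsm₀ : ContDiffOn ℝ ∞ Φ₀ χ.target := D.met.smooth _ _ hPar₀
  have hc₀ : CorankK k Φ₀ χ.target := D.rank _ _ hPar₀
  obtain ⟨W, L, w, e, hWV, hpW, hfr⟩ := hKFE χ.target χ.open_target Φ₀ hsm₀ hc₀ (χ p) hx₀
  obtain ⟨hhol, -⟩ := hFRD hk D hF χ.target ψ₀ hPar₀ W L w e hfr hWV
  have hcomm : ∀ x ∈ W, ∀ α β, fderiv ℂ (e β) x (e α x) = fderiv ℂ (e α) x (e β x) := by
    intro x hx α β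
    have hd : ∀ α, DifferentiableAt ℂ (e α) x := fun α =>
      (hhol α).differentiableAt (hfr.isOpen.mem_nhds hx)
    have hdj : ∀ α j, DifferentiableAt ℂ (fun y => e α y j) x := fun α j =>
      differentiableAt_pi.1 (hd α) j
    have hfj : ∀ α j u, fderiv ℂ (fun y => e α y j) x u = fderiv ℂ (e α) x u j := by
      intro α j u
      rw [((hasFDerivAt_pi'.1 (hd α).hasFDerivAt) j).fderiv]
      rfl
    funext j
    have h1 := (hDERK hfr x hx).2.2.1 α β j
    rw [Dv_holo _ (hdj β j), Dv_holo _ (hdj α j), hfj, hfj] at h1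
    exact mul_left_cancel₀ two_ne_zero h1
  obtain ⟨r, hr, σ, s1, s2, s3, s4, s5⟩ := hSTRK W hfr.isOpen (χ p) hpW L w e hfr.lin hfr.Lw
    hfr.norm hhol hcomm
  have hPo : IsOpen (prodK (ball (0 : Cn b) r) (ball (0 : Cn k) r)) :=
    isOpen_prodK isOpen_ball isOpen_ball
  set P := prodK (ball (0 : Cn b) r) (ball (0 : Cn k) r) with hP
  have hm₁ : MapsTo σ P χ.target := fun x hx => hWV (s3 hx)
  obtain ⟨hPar₁, hl₁⟩ := par_comp hPar₀ hPo s1 hm₁ (fun x hx => (s5 x hx).1)
  have hdetd : DifferentiableOn ℂ (fun x => (fderiv ℂ σ x).det) P :=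
    Pool.Agent.Helper10.Abund.differentiableOn_det_fderiv hPo s1
  obtain ⟨w1, w2⟩ := hWCH
  obtain ⟨-, w3⟩ := w1 χ.target P χ.open_target hPo σ s1 hm₁
  obtain ⟨w4, w5⟩ := w2 P hPo (fun x => (fderiv ℂ σ x).det) hdetd (fun x hx => (s5 x hx).1)
  have hσr : ContDiffOn ℝ ∞ σ P := holo_contDiffOn_real hPo s1
  have hlev : ∀ x ∈ P, ∀ e', lev (lpot (b + k) v (ψ₀ ∘ σ)) x e' =
      lev Φ₀ (σ x) (fderiv ℂ σ x e') := by
    intro x hx e'
    have e1 : lpot (b + k) v (ψ₀ ∘ σ) =ᶠ[𝓝 x]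
        fun y => (Φ₀ ∘ σ) y + Real.log (‖(fderiv ℂ σ y).det‖ ^ 2) := by
      filter_upwards [hPo.mem_nhds hx] with y hy
      exact hl₁ v D.met.pos y hy
    rw [Pool.Agent.Helper9.Lin.lev_congr e1 e',
      lev_add hPo (hsm₀.comp hσr hm₁) w4 hx, (w5 x hx).1, add_zero, (w3 Φ₀ hsm₀ x hx).1]
  have hdec : ∀ e' : Cn (b + k), base e' = 0 → e' = ∑ α, fib e' α • ef b α := by
    intro e' he'
    apply ext_base_fib
    · rw [he']
      have : base (∑ α, fib e' α • ef b α) = ∑ α, fib e' α • base (ef b α) := by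
        have h2 := map_sum (bsL b k) (fun α => fib e' α • ef b α) Finset.univ
        simp only [map_smul, bsL_apply] at h2
        exact h2
      rw [this]
      simp
    · have : fib (∑ α, fib e' α • ef b α) = ∑ α, fib e' α • fib (ef b α) := by
        have h2 := map_sum (fbL b k) (fun α => fib e' α • ef b α) Finset.univ
        simp only [map_smul, fbL_apply] at h2
        exact h2
      rw [this]
      funext i
      rw [Finset.sum_apply, Finset.sum_eq_single i]
      · simp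
      · intro j _ hj
        simp [hj.symm]
      · intro h
        exact absurd (Finset.mem_univ i) h
  refine ⟨r, hr, ψ₀ ∘ σ, ⟨hPar₁, fun x hx e' => ?_⟩, ?_, ?_⟩
  · rw [hlev x hx e']
    constructor
    · intro h0
      have h1 := hfr.only (σ x) (s3 hx) _ h0
      have hinj : Function.Injective (fderiv ℂ σ x) := by
        have h2 : LinearMap.det (fderiv ℂ σ x : Cn (b + k) →ₗ[ℂ] Cn (b + k)) ≠ 0 := (s5 x hx).1
        exact (LinearMap.equivOfDetNeZero _ h2).injective
      have h3 : fderiv ℂ σ x e' = fderiv ℂ σ x (∑ α, L (fderiv ℂ σ x e') α • ef b α) := by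
        rw [map_sum]
        refine h1.trans (Finset.sum_congr rfl fun α _ => ?_)
        rw [map_smul, (s5 x hx).2 α]
      rw [hinj h3]
      have h4 := map_sum (bsL b k) (fun α => L (fderiv ℂ σ x e') α • ef b α) Finset.univ
      simp only [map_smul, bsL_apply] at h4
      rw [h4]
      simp
    · intro h0
      apply lev_eq_zero_of_ker hLMF χ.open_target hsm₀ (hm₁ hx)
      intro j
      have h1 : fderiv ℂ σ x e' = ∑ α, fib e' α • e α (σ x) := by
        conv_lhs => rw [hdec e' h0, map_sum]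
        exact Finset.sum_congr rfl fun α _ => by rw [map_smul, (s5 x hx).2 α]
      have h2 : ∀ i, fderiv ℂ σ x e' i = ∑ α, fib e' α * e α (σ x) i := by
        intro i
        rw [h1, Finset.sum_apply]
        rfl
      simp only [h2, Finset.mul_sum]
      rw [Finset.sum_comm]
      refine Finset.sum_eq_zero fun α _ => ?_
      have h3 := hfr.ker (σ x) (s3 hx) α j
      rw [← mul_zero (fib e' α), ← h3, Finset.mul_sum]
      exact Finset.sum_congr rfl fun i _ => by ring
  · have h0 : InjOn ψ₀ χ.target := χ.symm.injOn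
    exact h0.comp s2 hm₁
  · show ψ₀ (σ 0) = p
    rw [s4]
    exact χ.left_inv hps

end Pool.Agent.Helper56.RK
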