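import Pool.Agent.Helper36.RK.GoalsG
import Pool.Agent.Helper95.RK.Basics
import Pool.Agent.Helper61.RK.ACBK
import Pool.Agent.Helper35.RK.TriB
import Pool.Agent.Helper2.RK.GRQ

/-! # Packet RK-BDG: bounds of the Kähler form in fibre directions -/

open Complex Metric Set Filter Topology MeasureTheory Matrix
open scoped ContDiff ComplexConjugate ComplexOrder Manifold

namespace Pool.Agent.Helper56.RK

open Pool.Agent.Helper95.Lin Pool.Agent.Helper16.Abund Pool.Agent.Helper92.Orb Pool.Agent.Helper10.SP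
  Pool.Agent.Helper95.RK Pool.Agent.Helper36.RK

variable {b k : ℕ}

/-- `hermi` in the split coordinates, the second vector in the fibre. -/
lemma hermi_split (A : Matrix (Fin (b + k)) (Fin (b + k)) ℂ) (e : Cn b) (v u : Cn k) :
    hermi A (ptK e v) (ptK 0 u) =
      (∑ a : Fin b, ∑ l : Fin k, A (Fin.castAdd k a) (Fin.natAdd b l) * e a * conj (u l)) +
        hermi A (ptK 0 v) (ptK 0 u) := by
  unfold hermi
  rw [Fin.sum_univ_add, Fin.sum_univ_add (fun i => ∑ j, A i j * ptK 0 v i * conj (ptK 0 u j))]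
  have h1 : ∀ i : Fin b, (∑ j, A (Fin.castAdd k i) j * ptK e v (Fin.castAdd k i) *
      conj (ptK (0 : Cn b) u j)) =
      ∑ l : Fin k, A (Fin.castAdd k i) (Fin.natAdd b l) * e i * conj (u l) := by
    intro i
    rw [Fin.sum_univ_add]
    simp only [ptK_castAdd, ptK_natAdd, Pi.zero_apply, map_zero, mul_zero,
      Finset.sum_const_zero, zero_add]
  have h2 : ∀ i : Fin b, (∑ j, A (Fin.castAdd k i) j * ptK 0 v (Fin.castAdd k i) *
      conj (ptK (0 : Cn b) u j)) = 0 := by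
    intro i
    simp only [ptK_castAdd, Pi.zero_apply, mul_zero, zero_mul, Finset.sum_const_zero]
  simp only [h1, h2, ptK_natAdd, Finset.sum_const_zero, zero_add]

/-- The exact packet. -/
theorem bdg : S_BDG := by
  intro b k N c R P Φ Hf C H hF hK
  have hC := hF.Cge
  have hR : (16 : ℝ) ≤ R := by linarith [hF.Rge]
  have hC0 : 0 < C := by linarith
  obtain ⟨K3, hK3⟩ := Pool.Agent.Helper2.RK.grq c R P Φ Hf C H hF hK
  -- the compact set
  set Kc : Set (Cn (b + k)) :=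
    ptL b k '' ((⋃ j, closedBall (c j) 1) ×ˢ closedBall (0 : Cn k) 1) with hKc
  have hcomp : IsCompact Kc :=
    ((isCompact_iUnion fun j => isCompact_closedBall _ _).prod
      (isCompact_closedBall _ _)).image (ptL b k).continuous
  have hsub : Kc ⊆ tubeK k (Bd c R) := by
    rintro _ ⟨⟨z, w⟩, ⟨hz, -⟩, rfl⟩
    obtain ⟨j, hj⟩ := mem_iUnion.1 hz
    refine mem_iUnion.2 ⟨j, ?_⟩
    rw [ptL_apply, base_ptK]
    exact closedBall_subset_ball (by linarith) hj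
  have hmem : ∀ z ∈ Bd c 1, ∀ w : Cn k, ‖w‖ < 1 → ptK z w ∈ Kc := by
    intro z hz w hw
    obtain ⟨m, hm⟩ := mem_iUnion.1 hz
    exact ⟨(z, w), ⟨mem_iUnion.2 ⟨m, ball_subset_closedBall hm⟩, by
      rw [mem_closedBall_zero_iff]; exact hw.le⟩, rfl⟩
  obtain ⟨B, hB⟩ : ∃ B : ℝ, ∀ x ∈ Kc, ∀ i j, ‖H x i j‖ ≤ B := by
    have hcont : ContinuousOn (fun x => fun ij : Fin (b + k) × Fin (b + k) => H x ij.1 ij.2) Kc :=
      continuousOn_pi.2 fun ij => (hK.smooth ij.1 ij.2).continuousOn.mono hsub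
    obtain ⟨B, hB⟩ := hcomp.exists_bound_of_continuousOn hcont
    exact ⟨B, fun x hx i j => (norm_le_pi_norm (fun ij : Fin (b + k) × Fin (b + k) =>
      H x ij.1 ij.2) (i, j)).trans (hB x hx)⟩
  obtain ⟨c1, C1, hc1, hC1, hpos⟩ := Pool.Agent.Helper61.RK.hf_bd hcomp hsub
    (fun i j => (hK.smooth i j).continuousOn) hK.posDef
  -- reduction to the compact set
  have key : ∀ z ∈ Bd c 2, ∀ w : Cn k, ∃ (x' : Cn (b + k)) (A : Matrix (Fin k) (Fin k) ℂ),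
      x' ∈ Kc ∧ MB A C ∧ (∀ u : Cn k, ‖u‖ ≤ C * ‖A *ᵥ u‖) ∧ ∀ u v : Cn k,
        hermi (H (ptK z w)) (ptK 0 u) (ptK 0 v) = hermi (H x') (ptK 0 (A *ᵥ u)) (ptK 0 (A *ᵥ v)) := by
    intro z hz w
    obtain ⟨i, hi⟩ := mem_iUnion.1 hz
    have hzR : z ∈ Bd c R := mem_iUnion.2 ⟨i, ball_subset_ball (by linarith) hi⟩
    obtain ⟨U, t0, hP0, hzU, hg0, hap0⟩ := hF.coc z hzR w
    have hg0' : t0.g z ∈ Bd c 2 := by
      obtain ⟨j, hj⟩ := mem_iUnion.1 hg0
      exact mem_iUnion.2 ⟨j, ball_subset_ball (by norm_num) hj⟩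
    obtain ⟨t, U', hP, -, hzU', -, hEq⟩ := hF.ext i z hi U t0 hP0 hzU hg0'
    obtain ⟨e1, e2, e3⟩ := hEq z hzU'
    have hg1 : t.g z ∈ Bd c 1 := by rw [e1]; exact hg0
    have hap : ‖t.ap z w‖ < 1 := by
      have : t.ap z w = t0.ap z w := by
        unfold TriK.ap
        rw [e2, e3]
      rw [this]
      exact hap0
    have hBig : BigK c P i t := ⟨hP, z, hi, by rw [e1]; exact hg0'⟩
    have hz4 : z ∈ ball (c i) 4 := ball_subset_ball (by norm_num) hi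
    obtain ⟨hA1, hA2⟩ := hF.abd i t hBig z hz4
    have hdet : (t.A z).det ≠ 0 := ((hF.holo _ _ hP).2.2.2 z hz4).2
    refine ⟨ptK (t.g z) (t.ap z w), t.A z, hmem _ hg1 _ hap, hA1, ?_, ?_⟩
    · intro u
      have h1 : (t.A z)⁻¹ *ᵥ (t.A z *ᵥ u) = u := by
        rw [Matrix.mulVec_mulVec, Matrix.nonsing_inv_mul _ (isUnit_iff_ne_zero.2 hdet),
          Matrix.one_mulVec]
      have h2 := hA2 (t.A z *ᵥ u)
      rwa [h1] at h2
    · intro u v
      have hxU : (ptK z w : Cn (b + k)) ∈ tubeK k (ball (c i) 4) := by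
        rw [tubeK, mem_setOf_eq, base_ptK]
        exact hz4
      have h1 := hK.inv _ t hP (ptK z w) hxU (ptK 0 u) (ptK 0 v)
      rw [Pool.Agent.Helper35.RK.map_fib isOpen_ball (hF.holo _ _ hP).2.2.1 hxU,
        Pool.Agent.Helper35.RK.map_fib isOpen_ball (hF.holo _ _ hP).2.2.1 hxU,
        Pool.Agent.Helper35.RK.map_ptK, base_ptK] at h1
      exact h1.symm
  have hB0 : 0 ≤ max B 0 := le_max_right _ _
  set K1 : ℝ := ((b + k : ℕ) : ℝ) ^ 2 * max B 0 * C * C with hK1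
  set K2 : ℝ := C ^ 2 / c1 with hK2
  set K4 : ℝ := (b : ℝ) * (k : ℝ) * |K3| with hK4
  have hK10 : 0 ≤ K1 := by positivity
  have hK20 : 0 < K2 := by positivity
  have hK40 : 0 ≤ K4 := by positivity
  have h1 : ∀ z ∈ Bd c 2, ∀ w u v : Cn k,
      ‖hermi (H (ptK z w)) (ptK 0 u) (ptK 0 v)‖ ≤ K1 * ‖u‖ * ‖v‖ := by
    intro z hz w u v
    obtain ⟨x', A, hx', hA, -, hinv⟩ := key z hz w
    rw [hinv]
    refine (Pool.Agent.Helper2.RK.hermi_bound (H x')
      (fun i j => (hB x' hx' i j).trans (le_max_left B 0)) hB0 _ _).trans ?_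
    have n1 : ‖ptK (0 : Cn b) (A *ᵥ u)‖ ≤ C * ‖u‖ := by
      rw [norm_ptK, norm_zero]
      exact max_le (by positivity) (hA u)
    have n2 : ‖ptK (0 : Cn b) (A *ᵥ v)‖ ≤ C * ‖v‖ := by
      rw [norm_ptK, norm_zero]
      exact max_le (by positivity) (hA v)
    calc ((b + k : ℕ) : ℝ) ^ 2 * max B 0 * ‖ptK (0 : Cn b) (A *ᵥ u)‖ *
          ‖ptK (0 : Cn b) (A *ᵥ v)‖
        ≤ ((b + k : ℕ) : ℝ) ^ 2 * max B 0 * (C * ‖u‖) * (C * ‖v‖) := by gcongr
      _ = K1 * ‖u‖ * ‖v‖ := by rw [hK1]; ring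
  refine ⟨K1 + K2 + K4, by positivity, ?_⟩
  intro z hz w u v
  refine ⟨?_, ?_, ?_⟩
  · refine (h1 z hz w u v).trans ?_
    have : K1 ≤ K1 + K2 + K4 := by linarith
    gcongr
  · obtain ⟨x', A, hx', -, hA, hinv⟩ := key z hz w
    rw [hinv]
    obtain ⟨hp, -⟩ := hpos x' hx' (ptK 0 (A *ᵥ u))
    have n1 : ‖ptK (0 : Cn b) (A *ᵥ u)‖ = ‖A *ᵥ u‖ := by
      rw [norm_ptK, norm_zero]
      exact max_eq_right (norm_nonneg _)
    rw [n1] at hp
    set q := (hermi (H x') (ptK 0 (A *ᵥ u)) (ptK 0 (A *ᵥ u))).re with hq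
    have hq0 : 0 ≤ q := le_trans (by positivity) hp
    have n2 : ‖u‖ ^ 2 ≤ C ^ 2 * ‖A *ᵥ u‖ ^ 2 := by
      rw [← mul_pow]
      exact pow_le_pow_left₀ (norm_nonneg _) (hA u) 2
    calc ‖u‖ ^ 2 ≤ C ^ 2 * ‖A *ᵥ u‖ ^ 2 := n2
      _ = K2 * (c1 * ‖A *ᵥ u‖ ^ 2) := by rw [hK2]; field_simp
      _ ≤ K2 * q := by gcongr
      _ ≤ (K1 + K2 + K4) * q := by
        refine mul_le_mul_of_nonneg_right (by linarith) hq0
  · intro e
    rw [hermi_split]
    have hw0 := norm_nonneg w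
    have m1 : ‖∑ a : Fin b, ∑ l : Fin k, H (ptK z w) (Fin.castAdd k a) (Fin.natAdd b l) * e a *
        conj (u l)‖ ≤ K4 * ((1 + ‖w‖) * ‖e‖) * ‖u‖ := by
      calc _ ≤ ∑ a : Fin b, ‖∑ l : Fin k, H (ptK z w) (Fin.castAdd k a) (Fin.natAdd b l) * e a *
            conj (u l)‖ := norm_sum_le _ _
        _ ≤ ∑ a : Fin b, ∑ l : Fin k, |K3| * (1 + ‖w‖) * ‖e‖ * ‖u‖ := by
            refine Finset.sum_le_sum fun a _ => (norm_sum_le _ _).trans
              (Finset.sum_le_sum fun l _ => ?_)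
            rw [norm_mul, norm_mul, RCLike.norm_conj]
            have g1 : ‖H (ptK z w) (Fin.castAdd k a) (Fin.natAdd b l)‖ ≤ |K3| * (1 + ‖w‖) :=
              (hK3 z hz w a l).trans (mul_le_mul_of_nonneg_right (le_abs_self _) (by positivity))
            have g2 := norm_le_pi_norm e a
            have g3 := norm_le_pi_norm u l
            gcongr
        _ = _ := by
            simp only [Finset.sum_const, Finset.card_univ, Fintype.card_fin, nsmul_eq_mul]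
            rw [hK4]
            ring
    refine (norm_add_le _ _).trans ((add_le_add m1 (h1 z hz w v u)).trans ?_)
    have p1 : K4 * ((1 + ‖w‖) * ‖e‖) * ‖u‖ ≤ (K1 + K2 + K4) * ((1 + ‖w‖) * ‖e‖) * ‖u‖ := by
      have : K4 ≤ K1 + K2 + K4 := by linarith
      gcongr
    have p2 : K1 * ‖v‖ * ‖u‖ ≤ (K1 + K2 + K4) * ‖v‖ * ‖u‖ := by
      have : K1 ≤ K1 + K2 + K4 := by linarith
      gcongr
    calc K4 * ((1 + ‖w‖) * ‖e‖) * ‖u‖ + K1 * ‖v‖ * ‖u‖
        ≤ (K1 + K2 + K4) * ((1 + ‖w‖) * ‖e‖) * ‖u‖ + (K1 + K2 + K4) * ‖v‖ * ‖u‖ :=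
          add_le_add p1 p2
      _ = _ := by ring

end Pool.Agent.Helper56.RK
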