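import Pool.Agent.Helper10.RK.GoalsK
import Pool.Agent.Helper55.RK.PARBK
import Pool.Agent.Helper95.RK.Basics
import Pool.Agent.Helper10.Abund.OpenSub
import Pool.Agent.Helper16.Abund.Semi
import Pool.Agent.Helper95.Lin.Basics

/-! # Packet RK-BACKK: from sections over the leaf space to canonical forms -/

open Complex Metric Set Filter Topology MeasureTheory
open scoped ContDiff ComplexConjugate ComplexOrder Manifold Matrix

namespace Pool.Agent.Helper56.RK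

open Pool.Agent.Helper95.Lin Pool.Agent.Helper16.Abund Pool.Agent.Helper92.Orb
open Pool.Agent.Helper10.SP Pool.Agent.Helper95.RK Pool.Agent.Helper36.RK Pool.Agent.Helper10.RK

universe u v

section back

variable {b k N : ℕ} {G : Type u} {M : Type v} [Group G] [MulAction G M]
  [TopologicalSpace M] [ChartedSpace (Fin (b + k) → ℂ) M]

/-- The chain rule for the action. -/
theorem jac_mul_act (hol : ∀ γ : G, MDifferentiable 𝓘(ℂ, Fin (b + k) → ℂ)
    𝓘(ℂ, Fin (b + k) → ℂ) (fun x : M => γ • x)) (γ γ' : G) (p : M) :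
    jac (b + k) (fun y : M => (γ * γ') • y) p =
      jac (b + k) (fun y : M => γ • y) (γ' • p) * jac (b + k) (fun y : M => γ' • y) p := by
  have e : (fun y : M => (γ * γ') • y) = (fun y : M => γ • y) ∘ (fun y : M => γ' • y) := by
    funext y
    exact mul_smul γ γ' y
  rw [e]
  exact jac_comp (hol γ _) (hol γ' _)

theorem jac_one_act (p : M) : jac (b + k) (fun y : M => (1 : G) • y) p = 1 := by
  have e : (fun y : M => (1 : G) • y) = id := by
    funext y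
    exact one_smul G y
  rw [e]
  exact jac_id p

/-- The local arrow between two parametrizations. -/
theorem lift [T2Space M] [IsManifold 𝓘(ℂ, Fin (b + k) → ℂ) ω M]
    {h : M → Matrix (Fin (b + k)) (Fin (b + k)) ℂ}
    {v : M → ℝ} (hD : DataK b k G M h v) {T V : Set (Cn (b + k))}
    {E ψ : Cn (b + k) → M} (hE : Par (b + k) E T) (hψ : Par (b + k) ψ V) {γ : G}
    {x y : Cn (b + k)} (hx : x ∈ V) (hy : y ∈ T) (hxy : γ • ψ x = E y) :
    ∃ (U : Set (Cn (b + k))) (τ : Cn (b + k) → Cn (b + k)), IsOpen U ∧ x ∈ U ∧ U ⊆ V ∧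
      DifferentiableOn ℂ τ U ∧ MapsTo τ U T ∧ τ x = y ∧ ∀ x' ∈ U, γ • ψ x' = E (τ x') ∧
      jac (b + k) (fun p : M => γ • p) (ψ x') * jac (b + k) ψ x' =
        jac (b + k) E (τ x') * (fderiv ℂ τ x').det := by
  obtain ⟨τ, U, W, hU, hW, hxU, hyW, hUV, hWT, hτ, -, hmaps, hτx, -, hrel⟩ :=
    (Pool.Agent.Helper55.RK.parbk hD).2.2.1 V T ψ E hψ hE γ x hx y hy hxy
  refine ⟨U, τ, hU, hxU, hUV, hτ, fun z hz => hWT (hmaps hz), hτx, fun x' hx' => ?_⟩
  have h1 : ∀ z ∈ U, γ • ψ z = E (τ z) := fun z hz => (hrel z hz (τ z) (hmaps hz)).2 rfl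
  refine ⟨h1 x' hx', ?_⟩
  have hψm : MDifferentiableAt 𝓘(ℂ, Fin (b + k) → ℂ) 𝓘(ℂ, Fin (b + k) → ℂ) ψ x' :=
    hψ.1.2.mdifferentiableAt (hψ.1.1.mem_nhds (hUV hx'))
  have hEm : MDifferentiableAt 𝓘(ℂ, Fin (b + k) → ℂ) 𝓘(ℂ, Fin (b + k) → ℂ) E (τ x') :=
    hE.1.2.mdifferentiableAt (hE.1.1.mem_nhds (hWT (hmaps hx')))
  have hτm : MDifferentiableAt 𝓘(ℂ, Fin (b + k) → ℂ) 𝓘(ℂ, Fin (b + k) → ℂ) τ x' :=
    (hτ.differentiableAt (hU.mem_nhds hx')).mdifferentiableAt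
  have e1 : (fun p : M => γ • p) ∘ ψ =ᶠ[𝓝 x'] E ∘ τ := by
    filter_upwards [hU.mem_nhds hx'] with z hz
    exact h1 z hz
  rw [← jac_comp (hD.act.holo γ (ψ x')) hψm, jac_congr e1, jac_comp hEm hτm, jac_eq_fderiv]

/-- The value at `p` of the form, computed with `γ • p = E y`. -/
noncomputable def val (E : Cn (b + k) → M) (g : Cn (b + k) → ℂ) (m : ℕ) (γ : G)
    (y : Cn (b + k)) (p : M) : ℂ :=
  g y * ((jac (b + k) E y)⁻¹ * jac (b + k) (fun x : M => γ • x) p) ^ m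

theorem val_eq [T2Space M] [IsManifold 𝓘(ℂ, Fin (b + k) → ℂ) ω M]
    {h : M → Matrix (Fin (b + k)) (Fin (b + k)) ℂ}
    {v : M → ℝ} (hD : DataK b k G M h v) {c : Fin N → Cn b}
    {E : Cn (b + k) → M} (hE : Par (b + k) E (tubeK k (Bd c 2))) {m : ℕ} {g : Cn (b + k) → ℂ}
    (hg : Sec (tubeK k (Bd c 2)) (RelT (G := G) (tubeK k (Bd c 2)) E) m g) {γ γ' : G} {y y' : Cn (b + k)} {p : M}
    (hy : y ∈ tubeK k (Bd c 2)) (hy' : y' ∈ tubeK k (Bd c 2)) (e : γ • p = E y)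
    (e' : γ' • p = E y') : val E g m γ y p = val E g m γ' y' p := by
  obtain ⟨δ, hδ⟩ : ∃ δ : G, δ = γ' * γ⁻¹ := ⟨_, rfl⟩
  have hγ' : γ' = δ * γ := by rw [hδ, inv_mul_cancel_right]
  have h1 : δ • E y = E y' := by
    rw [← e, smul_smul, ← hγ', e']
  obtain ⟨U, τ, hU, hyU, hUT, hτ, hmaps, hτy, hrel⟩ := lift hD hE hE hy hy' h1
  have hArr : Arr (RelT (G := G) (tubeK k (Bd c 2)) E) U τ :=
    ⟨hU, hτ, δ, fun x hx => ⟨hUT hx, hmaps hx, (hrel x hx).1⟩⟩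
  have h2 := hg.2 U τ hArr y hyU
  have h3 := (hrel y hyU).2
  rw [hτy] at h2 h3
  have n1 := hE.2 y hy
  have n2 := hE.2 y' hy'
  have h4 := jac_mul_act (b := b) (k := k) hD.act.holo δ γ p
  rw [← hγ', e] at h4
  unfold val
  rw [h2, h4, mul_assoc, ← mul_pow]
  congr 2
  field_simp
  linear_combination (-jac (b + k) (fun y : M => γ • y) p) * h3

end back

theorem backk : S_BACKK.{u, v} := by
  intro b k N G M _ _ _ _ _ _ h q v hD c R E Φ Hf hL hR m g hg hgd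
  have hTo : IsOpen (tubeK k (Bd c 2)) := by
    have h1 : IsOpen (Bd c 2) := isOpen_iUnion fun _ => isOpen_ball
    have h2 : Continuous fun x : Cn (b + k) => base x := by
      unfold base
      fun_prop
    exact h1.preimage h2
  have hTR : tubeK k (Bd c 2) ⊆ tubeK k (Bd c R) := by
    intro x hx
    obtain ⟨i, hi⟩ := mem_iUnion.1 hx
    exact mem_iUnion.2 ⟨i, ball_subset_ball hR hi⟩
  have hE : Par (b + k) E (tubeK k (Bd c 2)) :=
    ⟨⟨hTo, hL.par.1.2.mono hTR⟩, fun z hz => hL.par.2 z (hTR hz)⟩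
  have hcov : ∀ p : M, ∃ (γ : G) (y : Cn (b + k)), y ∈ tubeK k (Bd c 2) ∧ γ • p = E y := by
    intro p
    obtain ⟨γ, z, hz, w, -, e⟩ := hL.cov p
    refine ⟨γ, ptK z w, ?_, e⟩
    obtain ⟨i, hi⟩ := mem_iUnion.1 hz
    have h1 : base (ptK z w) = z := base_ptK z w
    show base (ptK z w) ∈ Bd c 2
    rw [h1]
    exact mem_iUnion.2 ⟨i, ball_subset_ball (by norm_num) hi⟩
  choose γs ys hys hγs using hcov
  obtain ⟨f, hf⟩ : ∃ f : M → ℂ, f = fun p => val E g m (γs p) (ys p) p := ⟨_, rfl⟩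
  have hfv : ∀ (p : M) (γ : G) (y : Cn (b + k)), y ∈ tubeK k (Bd c 2) → γ • p = E y →
      f p = val E g m γ y p := by
    intro p γ y hy e
    rw [hf]
    exact val_eq hD hE hg (hys p) hy (hγs p) e
  refine ⟨f, ⟨?_, ?_⟩, ?_⟩
  · intro V ψ hV hψ z₀ hz₀
    obtain ⟨χ, hχ⟩ : ∃ χ : OpenPartialHomeomorph M (Fin (b + k) → ℂ),
      χ = chartAt (Fin (b + k) → ℂ) (ψ z₀) := ⟨_, rfl⟩
    have hsym : MDifferentiableOn 𝓘(ℂ, Fin (b + k) → ℂ) 𝓘(ℂ, Fin (b + k) → ℂ) χ.symm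
        χ.target := by
      rw [hχ]
      exact mdiff_chart_symm _
    have hch : MDifferentiableOn 𝓘(ℂ, Fin (b + k) → ℂ) 𝓘(ℂ, Fin (b + k) → ℂ) χ χ.source := by
      rw [hχ]
      exact mdiff_chart _
    have hpar : Par (b + k) χ.symm χ.target := by
      refine ⟨⟨χ.open_target, hsym⟩, fun z hz => ?_⟩
      rw [hχ] at hz ⊢
      exact jac_chart_symm_ne_zero _ hz
    have hs₀ : ψ z₀ ∈ χ.source := by
      rw [hχ]
      exact mem_chart_source _ _
    have ht₀ : χ (ψ z₀) ∈ χ.target := χ.map_source hs₀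
    have e₀ : γs (ψ z₀) • χ.symm (χ (ψ z₀)) = E (ys (ψ z₀)) := by
      rw [χ.left_inv hs₀]
      exact hγs _
    obtain ⟨U, τ, hU, hxU, hUV, hτ, hmaps, hτx, hrel⟩ := lift hD hE hpar ht₀
      (hys (ψ z₀)) e₀
    have hF : ∀ q ∈ U, f (χ.symm q) * jac (b + k) χ.symm q ^ m =
        g (τ q) * (fderiv ℂ τ q).det ^ m := by
      intro q hq
      obtain ⟨h1, h2⟩ := hrel q hq
      rw [hfv _ _ _ (hmaps hq) h1]
      unfold val
      rw [mul_assoc, ← mul_pow, mul_assoc, h2, ← mul_assoc,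
        inv_mul_cancel₀ (hE.2 _ (hmaps hq)), one_mul]
    have hFd : DifferentiableOn ℂ (fun q => g (τ q) * (fderiv ℂ τ q).det ^ m) U :=
      (hgd.comp hτ hmaps).mul
        ((Pool.Agent.Helper10.Abund.differentiableOn_det_fderiv hU hτ).pow m)
    have hψc : ContinuousAt ψ z₀ := (hψ.mdifferentiableAt (hV.mem_nhds hz₀)).continuousAt
    have hsrc : ∀ᶠ z in 𝓝 z₀, ψ z ∈ χ.source :=
      hψc.preimage_mem_nhds (χ.open_source.mem_nhds hs₀)
    have hUn : ∀ᶠ z in 𝓝 z₀, χ (ψ z) ∈ U :=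
      ((χ.continuousAt hs₀).comp hψc).preimage_mem_nhds (hU.mem_nhds hxU)
    obtain ⟨V₁, hV₁sub, hV₁o, hz₀V₁⟩ := _root_.mem_nhds_iff.1
      (Filter.inter_mem (hV.mem_nhds hz₀) (hsrc.and hUn))
    have hψat : ∀ z ∈ V₁, MDifferentiableAt 𝓘(ℂ, Fin (b + k) → ℂ) 𝓘(ℂ, Fin (b + k) → ℂ) ψ z :=
      fun z hz => hψ.mdifferentiableAt (hV.mem_nhds (hV₁sub hz).1)
    have hχψ : ∀ z ∈ V₁, MDifferentiableAt 𝓘(ℂ, Fin (b + k) → ℂ) 𝓘(ℂ, Fin (b + k) → ℂ)
        (χ ∘ ψ) z := fun z hz =>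
      (hch.mdifferentiableAt (χ.open_source.mem_nhds (hV₁sub hz).2.1)).comp z (hψat z hz)
    have hh : DifferentiableOn ℂ (χ ∘ ψ) V₁ := fun z hz =>
      (hχψ z hz).differentiableAt.differentiableWithinAt
    have hfin : DifferentiableOn ℂ (fun z => (g (τ (χ (ψ z))) *
        (fderiv ℂ τ (χ (ψ z))).det ^ m) * (fderiv ℂ (χ ∘ ψ) z).det ^ m) V₁ :=
      (hFd.comp hh fun z hz => (hV₁sub hz).2.2).mul
        ((Pool.Agent.Helper10.Abund.differentiableOn_det_fderiv hV₁o hh).pow m)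
    have hcg : DifferentiableOn ℂ (fun z => f (ψ z) * jac (b + k) ψ z ^ m) V₁ := by
      refine hfin.congr fun z hz => ?_
      have h1 := (hV₁sub hz).2.1
      have h2 := (hV₁sub hz).2.2
      have h3 : χ.symm (χ (ψ z)) = ψ z := χ.left_inv h1
      have h4 : MDifferentiableAt 𝓘(ℂ, Fin (b + k) → ℂ) 𝓘(ℂ, Fin (b + k) → ℂ) χ.symm
          ((χ ∘ ψ) z) :=
        hsym.mdifferentiableAt (χ.open_target.mem_nhds (χ.map_source h1))
      have h5 : ψ =ᶠ[𝓝 z] χ.symm ∘ (χ ∘ ψ) := by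
        filter_upwards [hV₁o.mem_nhds hz] with z' hz'
        exact (χ.left_inv (hV₁sub hz').2.1).symm
      have h6 : jac (b + k) ψ z = jac (b + k) χ.symm (χ (ψ z)) *
          (fderiv ℂ (χ ∘ ψ) z).det := by
        rw [jac_congr h5, jac_comp h4 (hχψ z hz), jac_eq_fderiv]
        rfl
      have h7 := hF _ h2
      rw [h3] at h7
      rw [h6, mul_pow, ← mul_assoc, h7]
    exact (hcg.differentiableAt (hV₁o.mem_nhds hz₀V₁)).differentiableWithinAt
  · intro γ _ x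
    have h1 := hys (γ • x)
    have h2 := hγs (γ • x)
    have h3 : (γs (γ • x) * γ) • x = E (ys (γ • x)) := by rw [mul_smul]; exact h2
    rw [hfv x _ _ h1 h3, hfv (γ • x) _ _ h1 h2]
    unfold val
    rw [jac_mul_act (b := b) (k := k) hD.act.holo, mul_assoc, ← mul_pow]
    ring
  · intro y hy hgy
    rw [hfv (E y) 1 y hy (one_smul _ _)]
    unfold val
    rw [jac_one_act, mul_one]
    exact mul_ne_zero hgy (pow_ne_zero _ (inv_ne_zero (hE.2 y hy)))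

end Pool.Agent.Helper56.RK
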