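import Pool.Agent.Helper95.RK.GoalsB
import Pool.Agent.Helper95.RK.Basics

/-! # Packet POSB: positivity -/

open Complex Metric Set Filter Topology MeasureTheory
open scoped ContDiff ComplexConjugate ComplexOrder Manifold Matrix Kronecker

namespace Pool.Agent.Helper56.RK

open Pool.Agent.Helper95.Lin Pool.Agent.Helper16.Abund Pool.Agent.Helper92.Orb
  Pool.Agent.Helper10.SP Pool.Agent.Helper95.RK

theorem trace_four {k : ℕ} (X g Y h : Matrix (Fin k) (Fin k) ℂ) :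
    Matrix.trace (X * g * Yᴴ * h) = ∑ s : Fin k × Fin k, X s.1 s.2 *
      ∑ t : Fin k × Fin k, (hᵀ ⊗ₖ g) s t * conj (Y t.1 t.2) := by
  rw [Matrix.trace, Fintype.sum_prod_type]
  refine Finset.sum_congr rfl fun j _ => ?_
  rw [Matrix.diag_apply, Matrix.mul_apply]
  simp only [Matrix.mul_apply, Fintype.sum_prod_type, Matrix.conjTranspose_apply,
    Matrix.kroneckerMap_apply, Matrix.transpose_apply, Finset.mul_sum, Finset.sum_mul]
  rw [Finset.sum_comm' (s := Finset.univ) (t := fun _ => Finset.univ) (t' := Finset.univ)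
    (s' := fun _ => Finset.univ) (f := fun l q => ∑ m, X j l * (h q j * g l m * conj (Y q m)))
    (by simp)]
  refine Finset.sum_congr rfl fun q _ => ?_
  rw [Finset.sum_comm]
  refine Finset.sum_congr rfl fun l _ => Finset.sum_congr rfl fun m _ => ?_
  rw [starRingEnd_apply]
  ring

theorem posb_lin {b k : ℕ} (T : Matrix (Fin b) (Fin b) ℂ) (g h : Matrix (Fin k) (Fin k) ℂ)
    (hT : T.PosDef) (hg : g.PosDef) (hh : h.PosDef)
    (B : Fin b → Fin k → Matrix (Fin k) (Fin k) ℂ) (N : ℂ)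
    (hN : N = ∑ a, ∑ c, ∑ i, ∑ p, T a c * h p i * Matrix.trace (B a i * g * (B c p)ᴴ * h)) :
    0 ≤ N ∧ (N = 0 → ∀ a i, B a i = 0) := by
  have hM : ((T ⊗ₖ hᵀ) ⊗ₖ (hᵀ ⊗ₖ g)).PosDef :=
    (hT.kronecker hh.transpose).kronecker (hh.transpose.kronecker hg)
  set y : (Fin b × Fin k) × (Fin k × Fin k) → ℂ := fun s => conj (B s.1.1 s.1.2 s.2.1 s.2.2) with hy
  have hNy : N = star y ⬝ᵥ (((T ⊗ₖ hᵀ) ⊗ₖ (hᵀ ⊗ₖ g)) *ᵥ y) := by
    rw [hN]
    simp only [trace_four]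
    have e1 : star y ⬝ᵥ (((T ⊗ₖ hᵀ) ⊗ₖ (hᵀ ⊗ₖ g)) *ᵥ y) = ∑ u : Fin b × Fin k,
        ∑ s : Fin k × Fin k, ∑ w : Fin b × Fin k, ∑ t : Fin k × Fin k,
          B u.1 u.2 s.1 s.2 * ((T ⊗ₖ hᵀ) u w * (hᵀ ⊗ₖ g) s t * conj (B w.1 w.2 t.1 t.2)) := by
      rw [dotProduct, Fintype.sum_prod_type]
      refine Finset.sum_congr rfl fun u _ => Finset.sum_congr rfl fun s _ => ?_
      rw [Matrix.mulVec, dotProduct, Fintype.sum_prod_type, Finset.mul_sum]
      refine Finset.sum_congr rfl fun w _ => ?_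
      rw [Finset.mul_sum]
      refine Finset.sum_congr rfl fun t _ => ?_
      rw [Pi.star_apply, hy]
      simp only [Matrix.kroneckerMap_apply, RCLike.star_def, conj_conj]
    rw [e1]
    have e2 : ∀ u : Fin b × Fin k, ∑ s : Fin k × Fin k, ∑ w : Fin b × Fin k,
        ∑ t : Fin k × Fin k, B u.1 u.2 s.1 s.2 *
          ((T ⊗ₖ hᵀ) u w * (hᵀ ⊗ₖ g) s t * conj (B w.1 w.2 t.1 t.2)) =
        ∑ w : Fin b × Fin k, (T ⊗ₖ hᵀ) u w * ∑ s : Fin k × Fin k, B u.1 u.2 s.1 s.2 *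
          ∑ t : Fin k × Fin k, (hᵀ ⊗ₖ g) s t * conj (B w.1 w.2 t.1 t.2) := by
      intro u
      rw [Finset.sum_comm]
      refine Finset.sum_congr rfl fun w _ => ?_
      rw [Finset.mul_sum]
      refine Finset.sum_congr rfl fun s _ => ?_
      rw [Finset.mul_sum, Finset.mul_sum]
      refine Finset.sum_congr rfl fun t _ => ?_
      ring
    simp only [e2]
    rw [Fintype.sum_prod_type]
    refine Finset.sum_congr rfl fun a _ => ?_
    rw [Finset.sum_comm]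
    refine Finset.sum_congr rfl fun i _ => ?_
    rw [Fintype.sum_prod_type]
    rfl
  have hnn : 0 ≤ N := by
    rw [hNy]
    exact hM.posSemidef.dotProduct_mulVec_nonneg y
  refine ⟨hnn, fun h0 a i => ?_⟩
  have hy0 : y = 0 := by
    by_contra hne
    have := hM.dotProduct_mulVec_pos hne
    rw [← hNy, h0] at this
    exact lt_irrefl _ this
  ext j l
  have := congrFun hy0 ((a, i), (j, l))
  rw [hy] at this
  simpa using this

theorem posb (hSMQ : S_SMQ) : S_POSB := by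
  intro b k W Q Φ hA x hx
  obtain ⟨⟨h1, -⟩, -⟩ := hSMQ W Q Φ hA
  obtain ⟨p1, p2, p3, p4⟩ := h1 x hx
  have hmu : 0 < muq Q Φ x := mul_pos p3.det_pos p1.det_pos
  obtain ⟨hn, h0⟩ := posb_lin (Thq Φ x)⁻¹ (gq Q x) (gq Q x)⁻¹ p4 p1 p2 (fun a i => BBq Q a i x)
    (NBq Q Φ x) rfl
  obtain ⟨m1, m2⟩ := Complex.lt_def.1 hmu
  obtain ⟨n1, n2⟩ := Complex.le_def.1 hn
  exact ⟨m2.symm, m1, n2.symm, n1, h0⟩

end Pool.Agent.Helper56.RK
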